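import Mathlib
import Pool.Agent.H1.Dav48

namespace Pool.Agent.Results.MP_9fddba_co.Disproof

open Pool.Agent.H1.Dav48

abbrev G := ZMod 2 × ZMod 2 × ZMod 2 × ZMod 6

def θ : H →+ G where
  toFun h := (h.1 0, h.1 1, h.1 2, 3 * ((h.1 3).val : ZMod 6) + 4 * ((h.2).val : ZMod 6))
  map_zero' := by decide
  map_add' := by
    have key : ∀ (a b : ZMod 2) (c d : ZMod 3),
        3 * ((a + b).val : ZMod 6) + 4 * ((c + d).val : ZMod 6)
        = (3 * (a.val : ZMod 6) + 4 * (c.val : ZMod 6))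
          + (3 * (b.val : ZMod 6) + 4 * (d.val : ZMod 6)) := by decide
    intro x y
    refine Prod.ext rfl (Prod.ext rfl (Prod.ext rfl ?_))
    exact key _ _ _ _

lemma θ_surj : ∀ g : G, ∃ x, x < 48 ∧ θ (dec x) = g := by decide +kernel

lemma upper (S : Multiset G) (hS : 9 ≤ S.card) : ∃ U ≤ S, U ≠ 0 ∧ U.sum = 0 := by
  choose e he using θ_surj
  have h : S = (S.map fun g => dec (e g)).map θ := by
    rw [Multiset.map_map]
    conv_lhs => rw [← Multiset.map_id S]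
    exact Multiset.map_congr rfl fun g _ => (he g).2.symm
  have := zs_map θ (zs_nine (S.map fun g => dec (e g)) (by simpa using hS))
  rw [← h] at this
  exact this

lemma le_coe {l : List G} {U : Multiset G} (h : U ≤ (l : Multiset G)) :
    ∃ l' ∈ l.sublists, (l' : Multiset G) = U := by
  have := Multiset.mem_powerset.mpr h
  rw [Multiset.powerset_coe'] at this
  obtain ⟨l', h1, h2⟩ := List.mem_map.mp (Multiset.mem_coe.mp this)
  exact ⟨l', List.mem_sublists.mpr (List.mem_sublists'.mp h1), h2⟩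

def l8 : List G := [(1, 0, 0, 0), (0, 1, 0, 0), (0, 0, 1, 0), (0, 0, 0, 1), (0, 0, 0, 1),
  (0, 0, 0, 1), (0, 0, 0, 1), (0, 0, 0, 1)]

def l10 : List G := [(0, 0, 0, 4), (0, 0, 0, 4), (0, 0, 0, 4), (1, 0, 0, 2), (0, 1, 0, 2),
  (0, 0, 1, 2), (1, 1, 1, 2), (0, 0, 0, 5), (1, 1, 0, 5), (1, 0, 1, 5)]

lemma h8 : ∀ l ∈ l8.sublists, l.sum = 0 → l = [] := by decide +kernel

lemma h10 : ∀ l ∈ l10.sublists, l.sum = 0 → l = [] ∨ l.length % 2 = 1 := by decide +kernel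

theorem result :
    IsLeast {t : ℕ | 0 < t ∧ ∀ S : Multiset (ZMod 2 × ZMod 2 × ZMod 2 × ZMod 6), t ≤ S.card →
        ∃ U ≤ S, U ≠ 0 ∧ U.sum = 0} 9 ∧
      ∃ S : Multiset (ZMod 2 × ZMod 2 × ZMod 2 × ZMod 6), S.card = 9 + 2 - 1 ∧
        ∀ U ≤ S, U ≠ 0 → U.sum = 0 → ∃ b ∈ ({1} : Finset ℕ), U.card ≡ b [MOD 2] := by
  refine ⟨⟨⟨by norm_num, upper⟩, ?_⟩, (l10 : Multiset G), by decide, ?_⟩
  · rintro t ⟨_, ht⟩
    by_contra hlt
    obtain ⟨U, hU, h0, hs⟩ := ht (l8 : Multiset G) (by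
      have : (l8 : Multiset G).card = 8 := by decide
      omega)
    obtain ⟨l, hl, rfl⟩ := le_coe hU
    have := h8 l hl (by simpa using hs)
    subst this
    exact h0 rfl
  · intro U hU h0 hs
    obtain ⟨l, hl, rfl⟩ := le_coe hU
    rcases h10 l hl (by simpa using hs) with h | h
    · subst h
      exact absurd rfl h0
    · exact ⟨1, by simp, by simpa [Nat.ModEq] using h⟩

end Pool.Agent.Results.MP_9fddba_co.Disproof
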